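import Pool.Agent.helper21.UB.Spec

set_option autoImplicit false

open Quaternion

namespace Pool.Agent.helper21.UB

theorem PRI (hHUR : HUR_stmt) (hEUC : EUC_stmt) : PRI_stmt := by
  classical
  obtain ⟨-, -, -, -, -, hnorm, -⟩ := hHUR
  intro M hM hst hne
  have hex : ∃ n : ℕ, ∃ m ∈ M, m ≠ 0 ∧ normSq m = (n : ℚ) := by
    obtain ⟨m, hm, hm0⟩ := hne
    obtain ⟨n, hn⟩ := hnorm m (hM m hm)
    exact ⟨n, m, hm, hm0, hn⟩
  obtain ⟨x, hx, hx0, hxn⟩ := Nat.find_spec hex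
  refine ⟨x, hx, hx0, fun y hy => ?_⟩
  obtain ⟨q, hq, hlt⟩ := hEUC (y * x⁻¹)
  refine ⟨q, hq, ?_⟩
  have hz : y - q * x ∈ M := M.sub_mem hy (hst q hq x hx)
  have hzx : y - q * x = (y * x⁻¹ - q) * x := by
    rw [sub_mul, mul_assoc, inv_mul_cancel₀ hx0, mul_one]
  by_contra hne'
  have hz0 : y - q * x ≠ 0 := fun h => hne' (sub_eq_zero.1 h)
  obtain ⟨n, hn⟩ := hnorm _ (hM _ hz)
  have h1 : Nat.find hex ≤ n := Nat.find_min' hex ⟨_, hz, hz0, hn⟩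
  have h2 : (n : ℚ) = normSq (y * x⁻¹ - q) * (Nat.find hex : ℕ) := by
    rw [← hn, hzx, map_mul, hxn]
  have h3 : (0 : ℚ) < (Nat.find hex : ℕ) := by
    rw [← hxn]
    exact lt_of_le_of_ne (normSq_nonneg) (fun h => hx0 (normSq_eq_zero.1 h.symm))
  have h4 : ((Nat.find hex : ℕ) : ℚ) ≤ n := by exact_mod_cast h1
  nlinarith

end Pool.Agent.helper21.UB
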